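import Mathlib

namespace Pool.Agent.Results.MP_5f25aa_nt.ShorterFormulas

/-- Arithmetic expressions built from copies of the integer `2` using only addition and
multiplication, with any parenthesisation. -/
inductive TwoExpr : Type
  | two : TwoExpr
  | add : TwoExpr → TwoExpr → TwoExpr
  | mul : TwoExpr → TwoExpr → TwoExpr

namespace TwoExpr

/-- The value of the expression. -/
def value : TwoExpr → ℕ
  | two => 2
  | add a b => value a + value b
  | mul a b => value a * value b

/-- The number of copies of `2` used by the expression. -/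
def size : TwoExpr → ℕ
  | two => 1
  | add a b => size a + size b
  | mul a b => size a + size b

end TwoExpr

open TwoExpr

/-- The `2`-complexity `‖n‖_2`: the least number of copies of `2` in an expression with
value `n`. -/
noncomputable def twoComplexity (n : ℕ) : ℕ :=
  sInf {s : ℕ | ∃ E : TwoExpr, E.value = n ∧ E.size = s}

/-- `n` is the value of an expression with `s` copies of `2`. -/
def Rep (n s : ℕ) : Prop := ∃ E : TwoExpr, E.value = n ∧ E.size = s

theorem Rep.le {n s : ℕ} (h : Rep n s) : twoComplexity n ≤ s := Nat.sInf_le h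

theorem Rep.mul {n s n' s' : ℕ} (h : Rep n s) (h' : Rep n' s') : Rep (n * n') (s + s') := by
  obtain ⟨E, h1, h2⟩ := h
  obtain ⟨F, h3, h4⟩ := h'
  exact ⟨E.mul F, by simp [value, h1, h3], by simp [size, h2, h4]⟩

theorem rep_two : Rep 2 1 := ⟨two, rfl, rfl⟩

/-- An expression for `2 * 3 ^ 16` with `32` copies of `2`. -/
def E3 : TwoExpr :=
  (add (mul two (mul two (mul two (mul two (mul two (mul (add (mul two (mul two (mul two (add (mul
    two (mul two two)) two)))) two) (add (mul two (mul two (add (mul two (mul two (add (mul two (mul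
    two (mul two (mul two (mul two (mul two (mul two (mul two (mul two (mul two two)))))))))) two)))
    two))) two))))))) two)

/-- An expression for `2 * 5 ^ 10` with `30` copies of `2`. -/
def E5 : TwoExpr :=
  (add (mul two (mul (add (mul two two) two) (mul (add (mul two (mul two (mul two (add (mul two (mul
    two (mul two (mul two (mul two (mul two two)))))) two)))) two) (add (mul two (mul (add (mul two
    two) two) (add (mul two (mul two (mul two (mul two (mul two (mul two two)))))) two))) two))))
    two)

theorem rep_E3 : Rep (2 * 3 ^ 16) 32 := ⟨E3, by decide +kernel, by decide +kernel⟩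

theorem rep_E5 : Rep (2 * 5 ^ 10) 30 := ⟨E5, by decide +kernel, by decide +kernel⟩

theorem rep_pow_two (k : ℕ) : Rep (2 ^ (k + 1)) (k + 1) := by
  induction k with
  | zero => exact rep_two
  | succ k ih => exact ih.mul rep_two

/-- Multiplying a short representation by further factors. -/
theorem family {b c k₀ r₀ : ℕ} (hb : Rep b c) (h0 : Rep (b ^ r₀) k₀) (r m : ℕ) :
    Rep (2 ^ m * b ^ (r₀ + r)) (m + k₀ + c * r) := by
  have h1 : ∀ r, Rep (b ^ (r₀ + r)) (k₀ + c * r) := by
    intro r
    induction r with
    | zero => simpa using h0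
    | succ r ih =>
      have h := ih.mul hb
      rw [← pow_succ, add_assoc, add_assoc] at h
      have e : k₀ + (c * r + c) = k₀ + c * (r + 1) := by ring
      rw [e] at h
      exact h
  rcases m with _ | m
  · simpa using h1 r
  · have h := (rep_pow_two m).mul (h1 r)
    rwa [← add_assoc] at h

theorem rep_six : Rep (2 ^ 2 + 2) 3 := ⟨add (mul two two) two, rfl, rfl⟩
theorem rep_ten : Rep (2 ^ 3 + 2) 4 := ⟨add (mul two (mul two two)) two, rfl, rfl⟩
theorem rep_eighteen : Rep (2 ^ 4 + 2) 5 :=
  ⟨add (mul two (mul two (mul two two))) two, rfl, rfl⟩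

theorem short_six : Rep ((2 ^ 2 + 2) ^ 16) 47 := by
  have h := (rep_pow_two 14).mul rep_E3
  norm_num at h ⊢
  exact h

theorem short_ten : Rep ((2 ^ 3 + 2) ^ 10) 39 := by
  have h := (rep_pow_two 8).mul rep_E5
  norm_num at h ⊢
  exact h

theorem short_eighteen : Rep ((2 ^ 4 + 2) ^ 8) 39 := by
  have h := (rep_pow_two 6).mul rep_E3
  norm_num at h ⊢
  exact h

/-- **The conjectured formula `‖2^m (2^u+2)^r‖_2 = m + (u+1) r` is false**, for each of
`u = 2, 3, 4`, for every `m ≥ 0` and for every `r ≥ 16`, `r ≥ 10`, `r ≥ 8` respectively. -/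
theorem result :
    (∀ m r : ℕ, 16 ≤ r → twoComplexity (2 ^ m * (2 ^ 2 + 2) ^ r) < m + (2 + 1) * r) ∧
    (∀ m r : ℕ, 10 ≤ r → twoComplexity (2 ^ m * (2 ^ 3 + 2) ^ r) < m + (3 + 1) * r) ∧
    (∀ m r : ℕ, 8 ≤ r → twoComplexity (2 ^ m * (2 ^ 4 + 2) ^ r) < m + (4 + 1) * r) := by
  refine ⟨fun m r hr => ?_, fun m r hr => ?_, fun m r hr => ?_⟩
  · obtain ⟨r, rfl⟩ := Nat.exists_eq_add_of_le hr
    have h := (family rep_six short_six r m).le
    omega
  · obtain ⟨r, rfl⟩ := Nat.exists_eq_add_of_le hr
    have h := (family rep_ten short_ten r m).le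
    omega
  · obtain ⟨r, rfl⟩ := Nat.exists_eq_add_of_le hr
    have h := (family rep_eighteen short_eighteen r m).le
    omega

end Pool.Agent.Results.MP_5f25aa_nt.ShorterFormulas
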